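import Pool.Agent.L7h34.BO.Stm
import Pool.Agent.L7h10.BP.CEN

set_option autoImplicit false

/-! # Part CENO of project BO: the expansion of the Bernoulli polynomial of odd degree at 1/2 -/

namespace Pool.Agent.L7h37.BO

open Pool.Agent.L7h58.BP Pool.Agent.L7h10.BP Finset Polynomial

theorem sum_odd (k : ℕ) (f : ℕ → ℂ) (hf : ∀ j, f (2 * j + 1) = 0) :
    ∑ i ∈ range (2 * k + 1 + 1), f i = ∑ j ∈ range (k + 1), f (2 * j) := by
  rw [Finset.sum_range_succ, hf k, add_zero, sum_even k f hf]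

theorem s_CENO : Pool.Agent.L7h34.BO.S_CENO := by
  intro n Y hn hn2 hY hdvd
  obtain ⟨k, hk2⟩ := hn
  obtain ⟨y, hy⟩ := IsAlgClosed.exists_pow_nat_eq ((Y : ℂ) / 12) (n := 2) (by norm_num)
  have hYC : (Y : ℂ) ≠ 0 := by exact_mod_cast hY
  have hy0 : y ≠ 0 := by
    intro h
    rw [h] at hy
    have : (Y : ℂ) / 12 = 0 := by rw [← hy]; norm_num
    rcases div_eq_zero_iff.1 this with h1 | h1
    · exact hYC h1
    · norm_num at h1
  have hroot : aeval (y + 1 / 2 : ℂ) (Polynomial.bernoulli n) = 0 := by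
    obtain ⟨g, hg⟩ := hdvd
    rw [hg, map_mul]
    have : aeval (y + 1 / 2 : ℂ) ((X ^ 2 - X + C (((3 - Y : ℤ) : ℚ) / 12)) : ℚ[X]) = 0 := by
      simp only [map_add, map_sub, map_pow, aeval_X, aeval_C]
      have h1 : (algebraMap ℚ ℂ) (((3 - Y : ℤ) : ℚ) / 12) = (3 - (Y : ℂ)) / 12 := by
        simp
      rw [h1]
      linear_combination hy
    rw [this, zero_mul]
  have hdup : aeval y (Dup n) = 0 := by rw [Dup_zero, map_zero]
  have h2 : aeval y ((Polynomial.bernoulli n).comp (X + C (1 / 2))) =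
      aeval (y + 1 / 2 : ℂ) (Polynomial.bernoulli n) := by
    rw [Polynomial.aeval_comp]
    congr 2
    simp
  have h3 : aeval y ((Polynomial.bernoulli n).comp (C 2 * X)) =
      aeval (2 * y : ℂ) (Polynomial.bernoulli n) := by
    rw [Polynomial.aeval_comp]
    congr 2
    simp
  unfold Dup at hdup
  rw [map_sub, map_add, map_mul, h2, h3, hroot, zero_add, aeval_C, aeval_bern, aeval_bern,
    Finset.mul_sum, ← Finset.sum_sub_distrib] at hdup
  have h4 : (algebraMap ℚ ℂ) (2 / 2 ^ n) = 2 / 2 ^ n := by simp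
  rw [h4] at hdup
  rw [hk2] at hdup
  rw [sum_odd k] at hdup
  · unfold Pool.Agent.L7h58.BP.Rel
    have h5 : (((∑ j ∈ range (n / 2 + 1), (n.choose (2 * j) : ℚ) * be j / (Y : ℚ) ^ j : ℚ)) : ℂ) *
        (-(y * ((Y : ℂ) / 12) ^ k)) = 0 := by
      rw [← hdup, hk2, show (2 * k + 1) / 2 = k by omega]
      push_cast
      rw [Finset.sum_mul]
      refine Finset.sum_congr rfl fun j hj => ?_
      rw [Finset.mem_range] at hj
      have h6 : y ^ (2 * k + 1 - 2 * j) = y * ((Y : ℂ) / 12) ^ (k - j) := by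
        rw [← hy, ← pow_mul, show 2 * k + 1 - 2 * j = 2 * (k - j) + 1 by omega, pow_succ, mul_comm]
      have h7 : (2 * y) ^ (2 * k + 1 - 2 * j) =
          2 * y * (4 ^ (k - j) * ((Y : ℂ) / 12) ^ (k - j)) := by
        rw [mul_pow, h6, show 2 * k + 1 - 2 * j = 2 * (k - j) + 1 by omega, pow_succ, pow_mul]
        norm_num
        ring
      rw [h6, h7]
      obtain ⟨l, rfl⟩ : ∃ l, k = j + l := ⟨k - j, by omega⟩
      have h8 : j + l - j = l := by omega
      rw [h8]
      unfold be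
      push_cast
      rw [pow_succ (2 : ℂ), pow_mul (2 : ℂ), pow_add, pow_add, div_pow, div_pow,
        show (2 : ℂ) ^ 2 = 4 by norm_num,
        show (12 : ℂ) ^ j = 4 ^ j * 3 ^ j by rw [← mul_pow]; norm_num]
      have h9 : (4 : ℂ) ^ j ≠ 0 := pow_ne_zero _ (by norm_num)
      have h10 : (3 : ℂ) ^ j ≠ 0 := pow_ne_zero _ (by norm_num)
      have h11 : (4 : ℂ) ^ l ≠ 0 := pow_ne_zero _ (by norm_num)
      have h12 : (12 : ℂ) ^ l ≠ 0 := pow_ne_zero _ (by norm_num)
      field_simp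
      ring
    have h6 : (-(y * ((Y : ℂ) / 12) ^ k)) ≠ 0 := by
      apply neg_ne_zero.mpr
      apply mul_ne_zero hy0
      apply pow_ne_zero
      exact div_ne_zero hYC (by norm_num)
    rcases mul_eq_zero.mp h5 with h | h
    · exact_mod_cast h
    · exact absurd h h6
  · intro j
    rcases Nat.eq_zero_or_pos j with h0 | h0
    · subst h0
      rcases Nat.eq_zero_or_pos k with hk0 | hk0
      · omega
      · obtain ⟨l, rfl⟩ : ∃ l, k = l + 1 := ⟨k - 1, by omega⟩
        rw [mul_pow]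
        have : 2 * (l + 1) + 1 - (2 * 0 + 1) = 2 * l + 2 := by omega
        rw [this]
        have h9 : (2 : ℂ) ^ (2 * (l + 1) + 1) = 2 * 2 ^ (2 * l + 2) := by ring
        rw [h9]
        have h10 : (2 : ℂ) ^ (2 * l + 2) ≠ 0 := pow_ne_zero _ (by norm_num)
        field_simp
        ring
    · have h1 : _root_.bernoulli (2 * j + 1) = 0 :=
        bernoulli_eq_zero_of_odd ⟨j, rfl⟩ (by omega)
      rw [h1]
      simp

end Pool.Agent.L7h37.BO
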